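import Pool.Agent.Bht.LibPBW88.Pbw

set_option autoImplicit false
set_option linter.unusedSectionVars false

/-!
# The universal enveloping algebra of a Lie algebra over a field has no zero divisors
-/

namespace Pool.Agent.Bht.UDom79

open Pool.Agent.Bht.LibPBW88

attribute [local instance 100] LieRing.ofAssociativeRing

section PBW

variable {K : Type*} [CommRing K] {L : Type*} [LieRing L] [LieAlgebra K L] {ι : Type*} [LinearOrder ι]

/-- The span of the words with less than `n` letters. -/
noncomputable def Lt (b : Module.Basis ι K L) (n : ℕ) : Submodule K (UniversalEnvelopingAlgebra K L) :=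
  Submodule.span K (mon b '' {w | w.length < n})

theorem mon_mem_Lt (b : Module.Basis ι K L) {n : ℕ} {w : List ι} (h : w.length < n) : mon b w ∈ Lt b n :=
  Submodule.subset_span ⟨w, h, rfl⟩

theorem Lt_mono (b : Module.Basis ι K L) {m n : ℕ} (h : m ≤ n) : Lt b m ≤ Lt b n := by
  apply Submodule.span_mono
  apply Set.image_mono
  intro w hw
  exact lt_of_lt_of_le hw h

theorem ι_mul_mem (b : Module.Basis ι K L) (x : L) {n : ℕ} {u : UniversalEnvelopingAlgebra K L}
    (hu : u ∈ Lt b n) : UniversalEnvelopingAlgebra.ι K x * u ∈ Lt b (n + 1) := by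
  have h1 : ∀ y : L, ∀ w : List ι, w.length < n →
      UniversalEnvelopingAlgebra.ι K y * mon b w ∈ Lt b (n + 1) := by
    intro y w hw
    let F : L →ₗ[K] UniversalEnvelopingAlgebra K L := (LinearMap.mulRight K (mon b w)) ∘ₗ
      ((UniversalEnvelopingAlgebra.ι K : L →ₗ⁅K⁆ UniversalEnvelopingAlgebra K L) :
                  L →ₗ[K] UniversalEnvelopingAlgebra K L)
    have h4 : (⊤ : Submodule K L) ≤ Submodule.comap F (Lt b (n + 1)) := by
      rw [← b.span_eq, Submodule.span_le]
      rintro _ ⟨e, rfl⟩
      show UniversalEnvelopingAlgebra.ι K (b e) * mon b w ∈ Lt b (n + 1)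
      rw [← mon_cons]
      apply mon_mem_Lt
      simpa using hw
    exact h4 (Submodule.mem_top (x := y))
  have h2 : Lt b n ≤ Submodule.comap (LinearMap.mulLeft K (UniversalEnvelopingAlgebra.ι K x))
      (Lt b (n + 1)) := by
    unfold Lt
    rw [Submodule.span_le]
    rintro _ ⟨w, hw, rfl⟩
    exact h1 x w hw
  exact h2 hu

theorem perm_sub_mem (b : Module.Basis ι K L) {w w' : List ι} (h : w.Perm w') :
    mon b w - mon b w' ∈ Lt b w.length := by
  induction h with
  | nil => simp
  | cons x h ih =>
    rw [mon_cons, mon_cons, ← mul_sub]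
    exact ι_mul_mem b _ ih
  | swap x y l =>
    have h1 : mon b (y :: x :: l) - mon b (x :: y :: l) =
        UniversalEnvelopingAlgebra.ι K ⁅b y, b x⁆ * mon b l := by
      rw [mon_cons, mon_cons, mon_cons, mon_cons, LieHom.map_lie,
        LieRing.of_associative_ring_bracket]
      noncomm_ring
    rw [h1]
    have h2 := ι_mul_mem b ⁅b y, b x⁆ (n := l.length + 1) (mon_mem_Lt b (w := l) (by omega))
    simpa using h2
  | trans h1 h2 ih1 ih2 =>
    rw [← h1.length_eq] at ih2
    have := Submodule.add_mem _ ih1 ih2
    simpa using this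

end PBW

section Field

open Classical MvPolynomial

variable {K : Type*} [Field K] {L : Type*} [LieRing L] [LieAlgebra K L] {ι : Type*} [LinearOrder ι]

/-- The linear isomorphism with the polynomials. -/
noncomputable def toP (b : Module.Basis ι K L) :
    UniversalEnvelopingAlgebra K L ≃ₗ[K] MvPolynomial ι K :=
  (pbw b).equiv (MvPolynomial.basisMonomials ι K) (Multiset.toFinsupp (α := ι)).toEquiv

theorem toP_pbw (b : Module.Basis ι K L) (s : Multiset ι) :
    toP b (pbw b s) = monomial (Multiset.toFinsupp s) 1 := by
  unfold toP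
  rw [Module.Basis.equiv_apply]
  rw [MvPolynomial.coe_basisMonomials]
  rfl

/-- The degree of an exponent. -/
def dg (d : ι →₀ ℕ) : ℕ := d.sum fun _ e => e

theorem dg_add (d e : ι →₀ ℕ) : dg (d + e) = dg d + dg e := by
  unfold dg
  exact Finsupp.sum_add_index' (fun _ => rfl) (fun _ _ _ => rfl)

theorem dg_toFinsupp (s : Multiset ι) : dg (Multiset.toFinsupp s) = Multiset.card s :=
  Multiset.toFinsupp_sum_eq s

/-- Polynomials of degree less than `k`. -/
noncomputable def LD (ι K : Type*) [Field K] (k : ℕ) : Submodule K (MvPolynomial ι K) where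
  carrier := {p | ∀ d, coeff d p ≠ 0 → dg d < k}
  add_mem' := by
    intro p q hp hq d hd
    rw [coeff_add] at hd
    by_cases h : coeff d p = 0
    · exact hq d (by rw [h, zero_add] at hd; exact hd)
    · exact hp d h
  zero_mem' := by
    intro d hd
    exact absurd (coeff_zero d) hd
  smul_mem' := by
    intro a p hp d hd
    rw [coeff_smul] at hd
    exact hp d (fun h => hd (by rw [h, smul_zero]))

theorem LD_mono {m n : ℕ} (h : m ≤ n) : LD ι K m ≤ LD ι K n := by
  intro p hp d hd
  exact lt_of_lt_of_le (hp d hd) h

theorem monomial_mem_LD {k : ℕ} {d : ι →₀ ℕ} (h : dg d < k) (a : K) :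
    monomial d a ∈ LD ι K k := by
  intro e he
  rw [coeff_monomial] at he
  split_ifs at he with h1
  · rw [← h1]; exact h
  · exact absurd rfl he

theorem toP_mon (b : Module.Basis ι K L) (w : List ι) :
    toP b (mon b ((w : Multiset ι).sort (· ≤ ·))) = monomial (Multiset.toFinsupp (w : Multiset ι)) 1 := by
  rw [← pbw_apply, toP_pbw]

theorem perm_sort (w : List ι) : w.Perm ((w : Multiset ι).sort (· ≤ ·)) := by
  rw [← Multiset.coe_eq_coe, Multiset.sort_eq]

theorem toP_Lt (b : Module.Basis ι K L) (n : ℕ) :
    ∀ x ∈ Lt b n, toP b x ∈ LD ι K n := by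
  induction n using Nat.strong_induction_on with
  | _ n ih =>
    have h2 : Lt b n ≤ Submodule.comap (toP b).toLinearMap (LD ι K n) := by
      conv_lhs => unfold Lt
      rw [Submodule.span_le]
      rintro _ ⟨w, hw, rfl⟩
      show toP b (mon b w) ∈ LD ι K n
      have hw' : w.length < n := hw
      have h3 := ih w.length hw' _ (perm_sub_mem b (perm_sort w))
      rw [map_sub, toP_mon] at h3
      have h4 : toP b (mon b w) = (toP b (mon b w) - monomial (Multiset.toFinsupp (w : Multiset ι)) 1) +
          monomial (Multiset.toFinsupp (w : Multiset ι)) 1 := by ring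
      rw [h4]
      apply Submodule.add_mem
      · exact LD_mono hw'.le h3
      · apply monomial_mem_LD
        rw [dg_toFinsupp]
        simpa using hw'
    exact fun x hx => h2 hx

theorem toP_mon_sub (b : Module.Basis ι K L) (w : List ι) :
    toP b (mon b w) - monomial (Multiset.toFinsupp (w : Multiset ι)) 1 ∈ LD ι K w.length := by
  have h3 := toP_Lt b w.length _ (perm_sub_mem b (perm_sort w))
  rw [map_sub, toP_mon] at h3
  exact h3

/-- The defect of multiplicativity. -/
noncomputable def df (b : Module.Basis ι K L) (p q : MvPolynomial ι K) : MvPolynomial ι K :=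
  toP b ((toP b).symm p * (toP b).symm q) - p * q

theorem df_add_left (b : Module.Basis ι K L) (p p' q : MvPolynomial ι K) :
    df b (p + p') q = df b p q + df b p' q := by
  unfold df
  rw [map_add, add_mul, map_add, add_mul]
  ring

theorem df_add_right (b : Module.Basis ι K L) (p q q' : MvPolynomial ι K) :
    df b p (q + q') = df b p q + df b p q' := by
  unfold df
  rw [map_add, mul_add, map_add, mul_add]
  ring

theorem df_zero_left (b : Module.Basis ι K L) (q : MvPolynomial ι K) : df b 0 q = 0 := by
  unfold df; rw [map_zero, zero_mul, zero_mul, map_zero, sub_zero]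

theorem df_zero_right (b : Module.Basis ι K L) (p : MvPolynomial ι K) : df b p 0 = 0 := by
  unfold df; rw [map_zero, mul_zero, mul_zero, map_zero, sub_zero]

theorem df_smul_left (b : Module.Basis ι K L) (a : K) (p q : MvPolynomial ι K) :
    df b (a • p) q = a • df b p q := by
  unfold df
  rw [map_smul, smul_mul_assoc, map_smul, smul_mul_assoc, smul_sub]

theorem df_smul_right (b : Module.Basis ι K L) (a : K) (p q : MvPolynomial ι K) :
    df b p (a • q) = a • df b p q := by
  unfold df
  rw [map_smul, mul_smul_comm, map_smul, mul_smul_comm, smul_sub]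

theorem df_monomial (b : Module.Basis ι K L) (s t : Multiset ι) :
    df b (monomial (Multiset.toFinsupp s) 1) (monomial (Multiset.toFinsupp t) 1) ∈
      LD ι K (Multiset.card s + Multiset.card t) := by
  unfold df
  rw [← toP_pbw b s, ← toP_pbw b t, LinearEquiv.symm_apply_apply, LinearEquiv.symm_apply_apply,
    toP_pbw, toP_pbw, pbw_apply, pbw_apply, ← mon_append, monomial_mul, mul_one, ← map_add]
  have h := toP_mon_sub b (s.sort (· ≤ ·) ++ t.sort (· ≤ ·))
  rw [List.length_append, Multiset.length_sort, Multiset.length_sort, ← Multiset.coe_add,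
    Multiset.sort_eq, Multiset.sort_eq] at h
  exact h

theorem df_mono (b : Module.Basis ι K L) (d e : ι →₀ ℕ) (x y : K) :
    df b (monomial d x) (monomial e y) ∈ LD ι K (dg d + dg e) := by
  have h1 : monomial d x = x • monomial d (1 : K) := by rw [smul_monomial, smul_eq_mul, mul_one]
  have h2 : monomial e y = y • monomial e (1 : K) := by rw [smul_monomial, smul_eq_mul, mul_one]
  rw [h1, h2, df_smul_left, df_smul_right]
  apply Submodule.smul_mem
  apply Submodule.smul_mem
  obtain ⟨s, rfl⟩ := (Multiset.toFinsupp (α := ι)).surjective d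
  obtain ⟨t, rfl⟩ := (Multiset.toFinsupp (α := ι)).surjective e
  rw [dg_toFinsupp, dg_toFinsupp]
  exact df_monomial b s t

theorem df_mem (b : Module.Basis ι K L) (p q : MvPolynomial ι K) :
    df b p q ∈ LD ι K (p.totalDegree + q.totalDegree) := by
  have h1 : ∀ (S T : Finset (ι →₀ ℕ)), S ⊆ p.support → T ⊆ q.support →
      df b (∑ d ∈ S, monomial d (coeff d p)) (∑ e ∈ T, monomial e (coeff e q)) ∈
        LD ι K (p.totalDegree + q.totalDegree) := by
    intro S
    induction S using Finset.induction_on with
    | empty => intro T _ _; rw [Finset.sum_empty, df_zero_left]; exact Submodule.zero_mem _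
    | insert d S hd ih =>
      intro T hS hT
      rw [Finset.sum_insert hd, df_add_left]
      apply Submodule.add_mem
      · have hdp := hS (Finset.mem_insert_self d S)
        clear ih
        induction T using Finset.induction_on with
        | empty => rw [Finset.sum_empty, df_zero_right]; exact Submodule.zero_mem _
        | insert e T he ih2 =>
          rw [Finset.sum_insert he, df_add_right]
          apply Submodule.add_mem
          · apply LD_mono _ (df_mono b d e _ _)
            apply Nat.add_le_add
            · exact le_totalDegree hdp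
            · exact le_totalDegree (hT (Finset.mem_insert_self e T))
          · exact ih2 (fun x hx => hT (Finset.mem_insert_of_mem hx))
      · exact ih T (fun x hx => hS (Finset.mem_insert_of_mem hx)) hT
  have h2 := h1 p.support q.support (Finset.Subset.refl _) (Finset.Subset.refl _)
  rw [support_sum_monomial_coeff, support_sum_monomial_coeff] at h2
  exact h2

theorem mul_ne_zero' (b : Module.Basis ι K L) {x y : UniversalEnvelopingAlgebra K L}
    (hx : x ≠ 0) (hy : y ≠ 0) : x * y ≠ 0 := by
  intro hxy
  have hp : toP b x ≠ 0 := fun h => hx ((LinearEquiv.map_eq_zero_iff _).mp h)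
  have hq : toP b y ≠ 0 := fun h => hy ((LinearEquiv.map_eq_zero_iff _).mp h)
  have h1 := df_mem b (toP b x) (toP b y)
  unfold df at h1
  rw [LinearEquiv.symm_apply_apply, LinearEquiv.symm_apply_apply, hxy, map_zero, zero_sub,
    Submodule.neg_mem_iff] at h1
  have hpq : toP b x * toP b y ≠ 0 := mul_ne_zero hp hq
  have h2 := totalDegree_mul_of_isDomain hp hq
  obtain ⟨d, hd, hd2⟩ : ∃ d ∈ (toP b x * toP b y).support,
      (d.sum fun _ e => e) = (toP b x * toP b y).totalDegree := by
    have hne : (toP b x * toP b y).support.Nonempty := by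
      rw [Finset.nonempty_iff_ne_empty]
      intro h
      exact hpq (support_eq_empty.mp h)
    obtain ⟨d, hd, h3⟩ := Finset.exists_mem_eq_sup _ hne (fun s : ι →₀ ℕ => s.sum fun _ e => e)
    exact ⟨d, hd, h3.symm⟩
  have h3 := h1 d (mem_support_iff.mp hd)
  unfold dg at h3
  omega

end Field

/-- The universal enveloping algebra of a Lie algebra over a field has no zero divisors. -/
theorem noZeroDivisors (K : Type*) [Field K] (L : Type*) [LieRing L] [LieAlgebra K L] :
    NoZeroDivisors (UniversalEnvelopingAlgebra K L) := by
  constructor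
  intro x y hxy
  by_contra h
  push Not at h
  classical
  let b := Module.Basis.ofVectorSpace K L
  let inst : LinearOrder (Module.Basis.ofVectorSpaceIndex K L) := linearOrderOfSTO WellOrderingRel
  exact mul_ne_zero' b h.1 h.2 hxy

end Pool.Agent.Bht.UDom79

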